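import Mathlib

set_option autoImplicit false

open Set Filter Topology Metric Function Complex Asymptotics Real
open scoped ComplexConjugate

namespace Pool.Agent.H.MP_0bd3a7_an

section
variable {E F : Type} [NormedAddCommGroup E] [NormedSpace ℂ E] [NormedAddCommGroup F]
  [NormedSpace ℂ F] [CompleteSpace F]

lemma weier {g : ℕ → E → F} {G : E → F} {c : E} {r : ℝ} (r0 : 0 < r)
    (hd : ∀ n, DifferentiableOn ℂ (g n) (ball c r)) (hu : TendstoUniformlyOn g G atTop (ball c r)) :
    DifferentiableAt ℂ G c := by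
  have sub : ∀ z ∈ ball c (r / 2), ball z (r / 2) ⊆ ball c r := fun z hz =>
    ball_subset_ball' (by linarith [mem_ball.1 hz])
  have d : ∀ n, ∀ z ∈ ball c (r / 2), HasFDerivAt (g n) (fderiv ℂ (g n) z) z := fun n z hz =>
    ((hd n).differentiableAt (mem_of_superset (ball_mem_nhds z (half_pos r0))
      (sub z hz))).hasFDerivAt
  have cs : UniformCauchySeqOn (fun n z => fderiv ℂ (g n) z) atTop (ball c (r / 2)) := by
    refine Metric.uniformCauchySeqOn_iff.2 fun ε ε0 => ?_
    obtain ⟨N, hN⟩ := Metric.uniformCauchySeqOn_iff.1 hu.uniformCauchySeqOn (ε * r / 8)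
      (by positivity)
    refine ⟨N, fun m hm n hn z hz => ?_⟩
    have := norm_fderiv_le_div_of_mapsTo_ball (f := fun w => g m w - g n w) (c := z)
      (R₂ := ε * r / 8 + ε * r / 8) (((hd m).sub (hd n)).mono (sub z hz)) (fun w hw => by
        rw [mem_closedBall_iff_norm]
        refine norm_sub_le_of_le ?_ ?_ <;> rw [← dist_eq_norm]
        · exact (hN m hm n hn w (sub z hz hw)).le
        · exact (hN m hm n hn z (sub z hz (mem_ball_self (half_pos r0)))).le) (half_pos r0)
    rw [((d m z hz).fun_sub (d n z hz)).fderiv] at this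
    rw [dist_eq_norm]
    refine this.trans_lt ?_
    rw [div_lt_iff₀ (half_pos r0)]
    nlinarith [mul_pos ε0 r0]
  choose! g' hg' using fun z hz => cauchySeq_tendsto_of_complete (cs.cauchySeq (x := z) hz)
  exact (hasFDerivAt_of_tendstoUniformlyOn isOpen_ball (cs.tendstoUniformlyOn_of_tendsto hg') d
    (fun z hz => hu.tendsto_at (ball_subset_ball (half_le_self r0.le) hz))
    (mem_ball_self (half_pos r0))).differentiableAt

/-- directional derivatives of holomorphic maps are holomorphic -/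
lemma dd {f : E → F} {U : Set E} (hU : IsOpen U) (hf : DifferentiableOn ℂ f U) (v : E) :
    DifferentiableOn ℂ (fun z => fderiv ℂ f z v) U := fun c hc => by
  obtain ⟨R, R0, hR⟩ := Metric.mem_nhds_iff.1 (inter_mem (hU.mem_nhds hc)
    ((hf.differentiableAt (hU.mem_nhds hc)).continuousAt (ball_mem_nhds (f c) one_pos)))
  set ρ := R / 2 / (‖v‖ + 1) with hρ
  have ρ0 : 0 < ρ := by positivity
  have m : ∀ z ∈ ball c (R / 2), ∀ s ∈ ball (0 : ℂ) ρ, z + s • v ∈ ball c R := fun z hz s hs => by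
    rw [mem_ball_iff_norm] at hz ⊢
    rw [mem_ball_zero_iff, hρ, lt_div_iff₀ (by positivity)] at hs
    rw [add_sub_right_comm]
    refine (norm_add_le _ _).trans_lt ?_
    rw [norm_smul]
    nlinarith [norm_nonneg s]
  let t : ℕ → ℝ := fun n => ρ / 2 * (1 / (n + 1))
  have t0 : ∀ n, 0 < t n := fun n => by positivity
  have t1 : ∀ n, ((t n : ℝ) : ℂ) ∈ ball (0 : ℂ) ρ := fun n => by
    rw [mem_ball_zero_iff, norm_real, Real.norm_of_nonneg (t0 n).le]
    exact (mul_le_of_le_one_right (by positivity) (div_le_one_of_le₀ (by simp)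
      (by positivity))).trans_lt (half_lt_self ρ0)
  refine (weier (g := fun n z => dslope (fun s : ℂ => f (z + s • v)) 0 (t n)) (half_pos R0)
    (fun n => ?_) ?_).differentiableWithinAt
  · simp only [dslope_of_ne _ (ofReal_ne_zero.2 (t0 n).ne'), slope_def_module]
    exact ((hf.comp (by fun_prop) fun z hz => (hR (m z hz _ (t1 n))).1).sub (hf.comp (by fun_prop)
      fun z hz => (hR (m z hz _ (mem_ball_self ρ0))).1)).const_smul _
  · have tt : Tendsto (fun n => 4 / ρ / ρ * t n) atTop (𝓝 (4 / ρ / ρ * (ρ / 2 * 0))) :=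
      (tendsto_one_div_add_atTop_nhds_zero_nat.const_mul _).const_mul _
    refine Metric.tendstoUniformlyOn_iff.2 fun ε ε0 => ?_
    filter_upwards [tt.eventually (gt_mem_nhds (by simpa using ε0))] with n hn z hz
    have d : DifferentiableOn ℂ (fun s : ℂ => f (z + s • v)) (ball 0 ρ) :=
      hf.comp (by fun_prop) fun s hs => (hR (m z hz s hs)).1
    have b : ∀ s ∈ ball (0 : ℂ) ρ, ‖dslope (fun s : ℂ => f (z + s • v)) 0 s‖ ≤ 2 / ρ :=
      fun s hs => norm_dslope_le_div_of_mapsTo_ball d (fun s hs => by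
        have a1 := (hR (m z hz s hs)).2
        have a2 := (hR (m z hz 0 (mem_ball_self ρ0))).2
        rw [mem_preimage, mem_ball] at a1 a2
        exact mem_closedBall.2 ((dist_triangle_right _ _ (f c)).trans (by linarith))) hs
    have := dist_le_div_mul_dist_of_mapsTo_ball (R₂ := 4 / ρ)
      ((differentiableOn_dslope (ball_mem_nhds 0 ρ0)).2 d) (fun s hs => by
        rw [mem_closedBall_iff_norm]
        exact (norm_sub_le_of_le (b s hs) (b 0 (mem_ball_self ρ0))).trans_eq (by ring)) (t1 n)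
    have e := (HasFDerivAt.comp_hasDerivAt (l := f) (0 : ℂ) (hf.differentiableAt (hU.mem_nhds
      (hR (m z hz 0 (mem_ball_self ρ0))).1)).hasFDerivAt
      (((hasDerivAt_id' (0 : ℂ)).smul_const v).const_add z)).deriv
    rw [zero_smul, add_zero, one_smul] at e
    rw [dslope_same, dist_zero_right, norm_real, Real.norm_of_nonneg (t0 n).le] at this
    rw [dist_comm, ← e]
    exact this.trans_lt hn

end

/-- Taylor coefficient at the origin -/
noncomputable def co (F : ℂ → ℂ) (k : ℕ) : ℂ := iteratedDeriv k F 0 / k.factorial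

lemma av {F : ℂ → ℂ} {r : ℝ} (r0 : 0 < r) (hF : DifferentiableOn ℂ F (closedBall 0 r)) (k : ℕ) :
    circleAverage (fun t => F t / t ^ k) 0 r = co F k := by
  rw [circleAverage_eq_circleIntegral r0.ne', circleIntegral.integral_congr r0.le
    (g := fun s => (1 / (s - 0) ^ (k + 1)) • F s) fun s _ => by
      simp only [sub_zero, smul_eq_mul]; ring, hF.circleIntegral_one_div_sub_center_pow_smul r0 k]
  simp only [smul_eq_mul, co]
  field_simp

lemma mode {A B : ℂ → ℂ} {r M : ℝ} (r0 : 0 < r) (hA : DifferentiableOn ℂ A (closedBall 0 r))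
    (hB : DifferentiableOn ℂ B (closedBall 0 r))
    (hM : ∀ t : ℂ, ‖t‖ = r → |(A t + conj t * B t).re| ≤ M) (k : ℕ) :
    ‖co A k + r ^ 2 * co B (k + 1) + conj (if k = 0 then A 0 + r ^ 2 * co B 1 else
      if k = 1 then B 0 else 0)‖ * r ^ k ≤ 2 * M := by
  have rc : (r : ℂ) ≠ 0 := ofReal_ne_zero.2 r0.ne'
  have ci : ∀ {G : ℂ → ℂ}, DifferentiableOn ℂ G (closedBall 0 r) → ∀ j : ℕ,
      CircleIntegrable (fun t => G t / t ^ j) 0 r := fun hG j =>
    ((hG.continuousOn.mono sphere_subset_closedBall).div (by fun_prop) fun s hs =>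
      pow_ne_zero _ (ne_of_mem_sphere hs r0.ne')).circleIntegrable r0.le
  have dA : DifferentiableOn ℂ (fun t => (t / r ^ 2) ^ k * A t) (closedBall 0 r) := by fun_prop
  have dB : DifferentiableOn ℂ (fun t => (t / r ^ 2) ^ k * (r ^ 2 * B t)) (closedBall 0 r) := by
    fun_prop
  have dB' : DifferentiableOn ℂ (fun t => r ^ 2 * B t) (closedBall 0 r) := by fun_prop
  have cB : ∀ j, co (fun t => r ^ 2 * B t) j = r ^ 2 * co B j := fun j => by
    rw [co, co, iteratedDeriv_const_mul_field, mul_div_assoc]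
  have e2 : (if k = 0 then A 0 + r ^ 2 * co B 1 else if k = 1 then B 0 else 0) =
      co (fun t => (t / r ^ 2) ^ k * A t) 0 + co (fun t => (t / r ^ 2) ^ k * (r ^ 2 * B t)) 1 := by
    rcases k with _ | k
    · simp only [pow_zero, one_mul, cB]
      simp [co]
    · have := ((((hasDerivAt_id' (0 : ℂ)).div_const (r ^ 2)).pow (k + 1)).mul
        (dB'.differentiableAt (closedBall_mem_nhds 0 r0)).hasDerivAt).deriv
      simp only [co, iteratedDeriv_one, iteratedDeriv_zero]
      erw [this]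
      rcases k with _ | k <;> simp [rc]
  rw [e2, ← cB, ← av r0 hA, ← av r0 dB', ← av r0 dA, ← av r0 dB,
    ← circleAverage_fun_add (ci hA _) (ci dB' _), ← circleAverage_fun_add (ci dA _) (ci dB _)]
  have i2 := (ci dA 0).add (ci dB 1)
  have := (conjCLE : ℂ →L[ℝ] ℂ).circleAverage_comp_comm i2
  erw [← this]
  have j1 := (conjCLE : ℂ →L[ℝ] ℂ).integrable_comp i2.1
  have j2 := (conjCLE : ℂ →L[ℝ] ℂ).integrable_comp i2.2
  have i3 : CircleIntegrable ((conjCLE : ℂ →L[ℝ] ℂ) ∘ ((fun t => (t / r ^ 2) ^ k * A t / t ^ 0) +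
    fun t => (t / r ^ 2) ^ k * (r ^ 2 * B t) / t ^ 1)) 0 r := ⟨j1, j2⟩
  erw [← circleAverage_add ((ci hA _).add (ci dB' _)) i3]
  rw [circleAverage_def, norm_smul, ← le_div_iff₀ (by positivity)]
  refine (mul_le_mul_of_nonneg_left (intervalIntegral.norm_integral_le_of_norm_le_const
    (C := 2 * M / r ^ k) fun θ _ => ?_) (norm_nonneg _)).trans_eq ?_
  · have n : ‖circleMap 0 r θ‖ = r := by simp [r0.le]
    set t := circleMap 0 r θ
    have t0 : t ≠ 0 := norm_ne_zero_iff.1 (n ▸ r0.ne')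
    have cj : conj t = r ^ 2 / t := by
      rw [eq_div_iff t0, conj_mul', n]
    have e : conj ((t / r ^ 2) ^ k) = 1 / t ^ k := by
      rw [map_pow, map_div₀, cj, map_pow, conj_ofReal, one_div, ← inv_pow]
      congr 1
      field_simp
    have : A t / t ^ k + r ^ 2 * B t / t ^ (k + 1) + conj ((t / r ^ 2) ^ k * A t / t ^ 0 +
        (t / r ^ 2) ^ k * (r ^ 2 * B t) / t ^ 1) = (2 * (A t + conj t * B t).re : ℝ) / t ^ k := by
      rw [← add_conj, cj, show (t / r ^ 2) ^ k * A t / t ^ 0 + (t / r ^ 2) ^ k * (r ^ 2 * B t) /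
        t ^ 1 = (t / r ^ 2) ^ k * (A t + r ^ 2 / t * B t) by ring, map_mul, e]
      field_simp
      ring
    refine (congrArg norm this).trans_le ?_
    rw [norm_div, norm_pow, n, norm_real, norm_mul, Real.norm_two]
    gcongr
    exact hM t n
  · rw [sub_zero, abs_of_pos (by positivity), Real.norm_of_nonneg (by positivity)]
    field_simp

lemma so {A B C : ℂ → ℂ} {A' B' C' x : ℂ} (hA : HasDerivAt A A' x) (hB : HasDerivAt B B' x)
    (hC : HasDerivAt C C' x)
    (h : (fun y => A y + conj y * B y + conj (C y)) =O[𝓝 x] fun y => (y - x) ^ 2) :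
    A x + conj x * B x + conj (C x) = 0 ∧ B x + conj C' = 0 := by
  have z : A x + conj x * B x + conj (C x) = 0 := by simpa using h.bound.choose_spec.self_of_nhds
  have d : HasFDerivAt (fun y => A y + conj y * B y + conj (C y)) (0 : ℂ →L[ℝ] ℂ) x := by
    rw [hasFDerivAt_iff_isLittleO]
    simp only [z, sub_zero, zero_apply]
    exact h.trans_isLittleO ((isLittleO_pow_id one_lt_two).comp_tendsto
      (Continuous.tendsto' (by fun_prop) _ _ (sub_self x)))
  have := ((hA.hasFDerivAt.restrictScalars ℝ).add ((conjCLE : ℂ →L[ℝ] ℂ).hasFDerivAt.mul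
    (hB.hasFDerivAt.restrictScalars ℝ))).add ((conjCLE : ℂ →L[ℝ] ℂ).hasFDerivAt.comp x
    (hC.hasFDerivAt.restrictScalars ℝ)) |>.unique d
  have e1 := congrArg (fun L => L 1) this
  have e2 := congrArg (fun L => L I) this
  simp at e1 e2
  refine ⟨z, ?_⟩
  linear_combination e1 / 2 + I / 2 * e2 + (-(A' + conj x * B') + (B x + conj C')) / 2 * I_sq

lemma harm {F : ℝ → ℂ → ℂ} {ε : ℝ → ℝ} (hF : ∀ t, DifferentiableOn ℂ (F t) (ball 0 1))
    (hc : ∀ x ∈ ball (0 : ℂ) 1, ContinuousAt (fun t => F t x) 1) (hε : Tendsto ε (𝓝[<] 1) (𝓝 0))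
    (h : ∀ x ∈ ball (0 : ℂ) 1, x ≠ 0 → |(F ‖x‖ x).re| ≤ ε ‖x‖) :
    ∃ c : ℝ, ∀ x ∈ ball (0 : ℂ) 1, F 1 x = c * I := by
  have key : ∀ σ : ℝ, |σ| = 1 → ∀ x ∈ ball (0 : ℂ) 1, σ * (F 1 x).re ≤ 0 := fun σ hσ x hx => by
    refine le_of_tendsto_of_tendsto ((((continuous_re.tendsto _).comp (hc x hx)).mono_left
      nhdsWithin_le_nhds).const_mul σ) hε ?_
    filter_upwards [Ioo_mem_nhdsLT (mem_ball_zero_iff.1 hx)] with t ht
    have t0 := (norm_nonneg x).trans_lt ht.1
    have := norm_le_of_forall_mem_frontier_norm_le (f := fun y => Complex.exp (σ * F t y))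
      (C := Real.exp (ε t)) (U := ball 0 t) isBounded_ball (DifferentiableOn.diffContOnCl (by
        rw [closure_ball _ t0.ne']
        exact (((hF t).mono (closedBall_subset_ball ht.2)).const_mul _).cexp)) (fun y hy => by
        rw [frontier_ball _ t0.ne', mem_sphere_zero_iff_norm] at hy
        have := h y (mem_ball_zero_iff.2 (hy ▸ ht.2)) (norm_ne_zero_iff.1 (hy ▸ t0.ne'))
        rw [hy] at this
        rw [norm_exp, re_ofReal_mul, Real.exp_le_exp]
        exact (le_abs_self _).trans (by rwa [abs_mul, hσ, one_mul]))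
      (subset_closure (mem_ball_zero_iff.2 ht.1))
    rwa [norm_exp, re_ofReal_mul, Real.exp_le_exp] at this
  have z : ∀ x ∈ ball (0 : ℂ) 1, (F 1 x).re = 0 := fun x hx => by
    linarith [key 1 abs_one x hx, key (-1) (by simp) x hx]
  obtain ⟨c, hc⟩ := ((hF 1).analyticOnNhd isOpen_ball).eq_const_of_re_eq_const z isOpen_ball
    ((convex_ball _ _).isConnected (nonempty_ball.2 one_pos))
  refine ⟨c.im, fun x hx => Complex.ext (by simpa using z x hx) (by simp [hc x hx])⟩

end Pool.Agent.H.MP_0bd3a7_an
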