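import Pool.Agent.H.MP_0bd3a7_an.A

set_option autoImplicit false

open Set Filter Topology Metric Function Complex Asymptotics
open scoped ComplexConjugate

namespace Pool.Agent.H.MP_0bd3a7_an

noncomputable def W (x : ℂ) : ℂ := x / (1 + x)

lemma n1 {x : ℂ} (hx : x ∈ ball (0 : ℂ) 1) : 1 + x ≠ 0 := fun e => by
  rw [eq_neg_of_add_eq_zero_right e] at hx
  simp at hx

lemma X1 {w : ℂ} (hw : w.re < 1 / 2) : 1 - w ≠ 0 ∧ w / (1 - w) ∈ ball (0 : ℂ) 1 ∧
    W (w / (1 - w)) = w := by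
  have n : 1 - w ≠ 0 := fun e => by
    rw [← sub_eq_zero.1 e, one_re] at hw
    linarith
  refine ⟨n, ?_, ?_⟩
  · rw [mem_ball_zero_iff, norm_div, div_lt_one (norm_pos_iff.2 n)]
    refine lt_of_pow_lt_pow_left₀ 2 (norm_nonneg _) ?_
    simp only [Complex.sq_norm, normSq_apply, sub_re, one_re, sub_im, one_im]
    linarith
  · rw [W, one_add_div n]
    field_simp
    ring

lemma ds {f : ℂ → ℂ} (hf : DifferentiableOn ℂ f (ball 0 1)) :
    DifferentiableOn ℂ (dslope f 0) (ball 0 1) ∧ ∀ x, f x = f 0 + x * dslope f 0 x :=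
  ⟨(differentiableOn_dslope (ball_mem_nhds 0 one_pos)).2 hf, fun x => by
    have := sub_smul_dslope f 0 x
    rw [sub_zero, smul_eq_mul] at this
    rw [this]
    ring⟩

lemma step0 {a : ℂ → ℂ} {C : ℝ} (ha : DifferentiableOn ℂ a (ball 0 1)) (a0 : a 0 = 0)
    (a1 : deriv a 0 = 0) (h : ∀ x ∈ ball (0 : ℂ) 1,
      |(conj x * a x).re| ≤ C * ((1 - ‖x‖ ^ 2) * ‖W x‖ ^ 2)) : ∀ x ∈ ball (0 : ℂ) 1, a x = 0 := by
  obtain ⟨d1, e1⟩ := ds ha
  obtain ⟨d2, e2⟩ := ds d1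
  rw [dslope_same, a1] at e2
  set g := dslope (dslope a 0) 0
  have k : ∀ x ∈ ball (0 : ℂ) 1, x ≠ 0 →
      |((1 + x) * (x + (‖x‖ : ℂ) ^ 2) * g x).re| ≤ C * (1 - ‖x‖ ^ 2) := fun x hx x0 => by
    have := h x hx
    have p := norm_pos_iff.2 (n1 hx)
    have q := norm_pos_iff.2 x0
    have e : (1 + x) * (x + (‖x‖ : ℂ) ^ 2) * g x =
        ((‖1 + x‖ ^ 2 / ‖x‖ ^ 2 : ℝ) : ℂ) * (conj x * a x) := by
      have : conj x ≠ 0 := by simpa using x0
      push_cast
      rw [e1, e2, a0, ← conj_mul', ← conj_mul', map_add, map_one]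
      field_simp
      ring
    rw [e, re_ofReal_mul, abs_mul, abs_of_nonneg (by positivity)]
    refine (mul_le_mul_of_nonneg_left this (by positivity)).trans_eq ?_
    rw [W, norm_div]
    field_simp
  obtain ⟨ν, hν⟩ := harm (F := fun t x => (1 + x) * (x + (t : ℂ) ^ 2) * g x)
    (ε := fun t => C * (1 - t ^ 2)) (fun t => by fun_prop) (fun x _ => by fun_prop)
    ((Continuous.tendsto' (by fun_prop) _ _ (by simp)).mono_left nhdsWithin_le_nhds) k
  have eg : ∀ x ∈ ball (0 : ℂ) 1, g x = ν * I / (1 + x) ^ 2 := fun x hx => by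
    rw [← hν x hx, eq_div_iff (pow_ne_zero _ (n1 hx))]
    push_cast
    ring
  have b : ∀ Y : ℝ, 0 < Y → |ν| * Y ≤ C := fun Y Y0 => by
    obtain ⟨n, m, -⟩ := X1 (w := Y * I) (by simp)
    have := k _ m (div_ne_zero (by simp [Y0.ne']) n)
    have e : ‖Y * I / (1 - Y * I)‖ ^ 2 = Y ^ 2 / (1 + Y ^ 2) := by
      rw [norm_div, div_pow, Complex.sq_norm, Complex.sq_norm]
      simp [normSq_apply, sq]
    have p : (1 : ℂ) + Y ^ 2 ≠ 0 := by norm_cast; positivity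
    have e' : (1 + Y * I / (1 - Y * I)) * (Y * I / (1 - Y * I) + (‖Y * I / (1 - Y * I)‖ : ℂ) ^ 2) *
        g (Y * I / (1 - Y * I)) = (-(ν * Y / (1 + Y ^ 2)) : ℝ) + (ν * Y ^ 2 / (1 + Y ^ 2) : ℝ) * I := by
      rw [← ofReal_pow, e, eg _ m, one_add_div n, sub_add_cancel]
      push_cast
      field_simp
      linear_combination (ν * (Y : ℂ) * (1 + Y ^ 2 - Y ^ 2)) * I_sq
    rw [e', e] at this
    simp only [add_re, ofReal_re, mul_re, I_re, mul_zero, ofReal_im, I_im, zero_mul, sub_zero,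
      add_zero, abs_neg, abs_div, abs_mul, abs_of_pos Y0,
      abs_of_pos (by positivity : 0 < 1 + Y ^ 2)] at this
    rw [div_le_iff₀ (by positivity)] at this
    refine this.trans_eq ?_
    field_simp
    ring
  have z : ν = 0 := by
    by_contra c
    have p := abs_pos.2 c
    have := b ((|C| + 1) / |ν|) (by positivity)
    rw [mul_div_cancel₀ _ p.ne'] at this
    linarith [le_abs_self C]
  intro x hx
  rw [e1, e2, eg x hx, z, a0]
  simp

lemma step1 {a b : ℂ → ℂ} {K : ℝ} (ha : DifferentiableOn ℂ a (ball 0 1))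
    (hb : DifferentiableOn ℂ b (ball 0 1)) (a0 : a 0 = 0) (b0 : b 0 = 0) (b1 : deriv b 0 = 0)
    (h : ∀ x ∈ ball (0 : ℂ) 1, ‖1 + x‖ ^ 2 * ‖conj x * a x + conj (b x)‖ ≤ K * √(1 - ‖x‖ ^ 2)) :
    ∃ κ : ℂ, ∀ x ∈ ball (0 : ℂ) 1, a x = κ * x / (1 + x) ^ 2 ∧
      b x = -conj κ * x ^ 2 / (1 + x) ^ 2 := by
  obtain ⟨d1, e1⟩ := ds ha
  obtain ⟨d2, e2⟩ := ds hb
  obtain ⟨d3, e3⟩ := ds (f := fun x => (1 + x) * dslope a 0 x) (by fun_prop)
  have z := dslope_same b 0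
  set A := dslope a 0
  set B := dslope b 0
  set G := dslope (fun x => (1 + x) * A x) 0
  simp only [add_zero, one_mul] at e3
  set Φ : ℝ → ℂ → ℂ := fun t x => t ^ 2 * ((1 + x) * A x) + t ^ 4 * G x with hΦ
  set Ψ : ℝ → ℂ → ℂ := fun t x => (1 + x) * (x + t ^ 2) * B x + t ^ 2 * conj (A 0) * x with hΨ
  have k : ∀ x ∈ ball (0 : ℂ) 1, ‖Φ ‖x‖ x + conj (Ψ ‖x‖ x)‖ ≤ K * √(1 - ‖x‖ ^ 2) := fun x hx => by
    refine le_of_eq_of_le ?_ (h x hx)
    rw [← norm_pow, ← norm_norm ((1 + x) ^ 2), ← norm_real, ← norm_mul, norm_pow]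
    congr 1
    have := e3 x
    simp only [hΦ, hΨ, ofReal_pow, show (‖x‖ : ℂ) ^ 4 = (‖x‖ ^ 2) ^ 2 by ring, ← conj_mul',
      map_add, map_mul, conj_conj, map_one, e1 x, e2 x, a0, b0, zero_add]
    linear_combination (-(conj x) ^ 2 * x) * this
  have tt : Tendsto (fun t : ℝ => K * √(1 - t ^ 2)) (𝓝[<] 1) (𝓝 0) :=
    (Continuous.tendsto' (by fun_prop) _ _ (by simp)).mono_left nhdsWithin_le_nhds
  obtain ⟨ν, hν⟩ := harm (F := fun t x => Φ t x + Ψ t x) (fun t => by fun_prop)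
    (fun x _ => by fun_prop) tt fun x hx _ => le_of_eq_of_le (by simp)
      ((abs_re_le_norm _).trans (k x hx))
  obtain ⟨μ, hμ⟩ := harm (F := fun t x => -I * (Φ t x - Ψ t x)) (fun t => by fun_prop)
    (fun x _ => by fun_prop) tt fun x hx _ => le_of_eq_of_le (by simp [sub_eq_add_neg])
      ((abs_im_le_norm _).trans (k x hx))
  have P0 : Ψ 1 0 = 0 := by simp [hΨ, z, b1]
  have r : (μ : ℂ) + ν * I = 0 := by
    have h1 := hν 0 (mem_ball_self one_pos)
    have h2 := hμ 0 (mem_ball_self one_pos)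
    rw [P0] at h1 h2
    linear_combination -h1 + I * h2 + (Φ 1 0 + μ) * I_sq
  have μ0 : μ = 0 := by simpa using congrArg re r
  have ν0 : ν = 0 := by simpa using congrArg im r
  refine ⟨A 0, fun x hx => ?_⟩
  have h1 := hν x hx
  have h2 := hμ x hx
  simp only [μ0, ν0, ofReal_zero, zero_mul, mul_eq_zero, neg_eq_zero, I_ne_zero, false_or, hΦ, hΨ,
    ofReal_one] at h1 h2
  rw [eq_div_iff (pow_ne_zero _ (n1 hx)), eq_div_iff (pow_ne_zero _ (n1 hx)), e1, e2, a0, b0]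
  exact ⟨by linear_combination x ^ 2 / 2 * (h1 + h2) + x * e3 x,
    by linear_combination x / 2 * (h1 - h2)⟩

variable {e : ℂ} {c : ℝ}

lemma on_arc (he : ‖e‖ = 1) (ht : 0 < e.im) {Y : ℝ} (hY : Y < -|c| / e.im) :
    (conj e * (c + Y * I)).re < 1 / 2 ∧ (e * (conj e * (c + Y * I))).re - c = 0 := by
  rw [lt_div_iff₀ ht] at hY
  have := abs_le.1 ((abs_re_le_norm e).trans he.le)
  refine ⟨?_, by simp [← mul_assoc, mul_conj', he]⟩
  simp
  nlinarith [le_abs_self (e.re * c), abs_mul e.re c, abs_nonneg c, abs_le.2 this]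

lemma arc (he : ‖e‖ = 1) (ht : 0 < e.im) {f : ℂ → ℂ} (hf : DifferentiableOn ℂ f (ball 0 1))
    (h : ∀ x ∈ ball (0 : ℂ) 1, (e * W x).re - c = 0 → f x = 0) : ∀ x ∈ ball (0 : ℂ) 1, f x = 0 := by
  set Y := -|c| / e.im - 1
  have Y1 : Y < -|c| / e.im := sub_one_lt _
  set γ : ℝ → ℂ := fun s => conj e * (c + s * I) / (1 - conj e * (c + s * I)) with hγ
  have m : ∀ s < -|c| / e.im, γ s ∈ ball (0 : ℂ) 1 ∧ W (γ s) = conj e * (c + s * I) :=
    fun s hs => (X1 (on_arc he ht hs).1).2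
  have cγ : ContinuousAt γ Y := ContinuousAt.div (by fun_prop) (by fun_prop) (X1 (on_arc he ht Y1).1).1
  have ev : ∀ᶠ s in 𝓝[≠] Y, s < -|c| / e.im := mem_nhdsWithin_of_mem_nhds (gt_mem_nhds Y1)
  refine (hf.analyticOnNhd isOpen_ball).eqOn_zero_of_preconnected_of_frequently_eq_zero
    (convex_ball _ _).isPreconnected (m Y Y1).1 (Tendsto.frequently (f := γ) (l₁ := 𝓝[≠] Y)
      (tendsto_nhdsWithin_iff.2 ⟨cγ.tendsto.mono_left nhdsWithin_le_nhds, ?_⟩)
      (ev.mono fun s hs => h _ (m s hs).1 ((m s hs).2 ▸ (on_arc he ht hs).2)).frequently)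
  filter_upwards [ev, self_mem_nhdsWithin] with s h1 h2 h3
  have := (m s h1).2.symm.trans ((congrArg W h3).trans (m Y Y1).2)
  have e0 : conj e ≠ 0 := by
    rw [map_ne_zero, ← norm_ne_zero_iff, he]
    exact one_ne_zero
  exact h2 (by simpa using mul_left_cancel₀ e0 this)

lemma dO {x : ℂ} (hx : x ∈ ball (0 : ℂ) 1) (h : (e * W x).re - c = 0) :
    (fun y => ((e * W y).re - c) ^ 2) =O[𝓝 x] fun y => (y - x) ^ 2 := by
  have d : DifferentiableAt ℂ (fun y => e * W y) x :=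
    (differentiableAt_id.div (by fun_prop) (n1 hx)).const_mul e
  have := (IsBigO.of_bound 1 (f := fun y => (e * W y).re - c) (.of_forall fun y => by
    rw [← sub_eq_zero.1 h, ← sub_re, one_mul]
    exact abs_re_le_norm _)).trans d.isBigO_sub
  exact this.pow 2

theorem rigid (he : ‖e‖ = 1) (ht : 0 < e.im) (hc : |c| ≤ 1) {a b : ℕ → ℂ → ℂ} {C : ℝ}
    (C0 : 0 ≤ C) (ha : ∀ k, DifferentiableOn ℂ (a k) (ball 0 1))
    (hb : ∀ k, DifferentiableOn ℂ (b k) (ball 0 1))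
    (H0 : ∀ x ∈ ball (0 : ℂ) 1, |(conj x * a 0 x).re| ≤ C * ((1 - ‖x‖ ^ 2) * ‖W x‖ ^ 2))
    (Hm : ∀ x ∈ ball (0 : ℂ) 1, ∀ r : ℝ, 0 < r → r ^ 2 < 1 - ‖x‖ ^ 2 → ∀ k : ℕ,
      ‖conj x * a k x + r ^ 2 * b (k + 1) x + conj (if k = 0 then conj x * a 0 x + r ^ 2 * b 1 x
        else if k = 1 then b 0 x else 0)‖ * r ^ k ≤
        2 * (C * ((1 - ‖x‖ ^ 2 - r ^ 2) * ‖W x‖ ^ 2 + r ^ 2 * (2 * ((e * W x).re - c) ^ 2))))
    (a00 : a 0 0 = 0) (a01 : deriv (a 0) 0 = 0) (a10 : a 1 0 = 0) (b00 : b 0 0 = 0)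
    (b01 : deriv (b 0) 0 = 0) (b10 : b 1 0 = 0) :
    ∀ k, ∀ x ∈ ball (0 : ℂ) 1, a k x = 0 ∧ b k x = 0 := by
  have A0 := step0 (ha 0) a00 a01 H0
  set ρ : ℂ → ℝ := fun x => √(1 - ‖x‖ ^ 2) with hρ
  have p1 : ∀ x ∈ ball (0 : ℂ) 1, 0 < 1 - ‖x‖ ^ 2 := fun x hx =>
    sub_pos.2 (pow_lt_one₀ (norm_nonneg _) (mem_ball_zero_iff.1 hx) two_ne_zero)
  have ρ0 : ∀ x ∈ ball (0 : ℂ) 1, 0 < ρ x := fun x hx => Real.sqrt_pos.2 (p1 x hx)
  have ρ2 : ∀ x ∈ ball (0 : ℂ) 1, ρ x ^ 2 = 1 - ‖x‖ ^ 2 := fun x hx => Real.sq_sqrt (p1 x hx).le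
  have Hl : ∀ x ∈ ball (0 : ℂ) 1, ∀ k : ℕ, ‖conj x * a k x + ρ x ^ 2 * b (k + 1) x +
      conj (if k = 0 then conj x * a 0 x + ρ x ^ 2 * b 1 x else if k = 1 then b 0 x else 0)‖ *
        ρ x ^ k ≤ 4 * C * ρ x ^ 2 * ((e * W x).re - c) ^ 2 := fun x hx k => by
    refine le_of_le_of_eq (le_of_tendsto_of_tendsto (b := 𝓝[<] ρ x)
      ((Continuous.tendsto (f := fun r : ℝ => ‖conj x * a k x + r ^ 2 * b (k + 1) x +
        conj (if k = 0 then conj x * a 0 x + r ^ 2 * b 1 x else if k = 1 then b 0 x else 0)‖ *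
        r ^ k) (by split_ifs <;> fun_prop) _).mono_left nhdsWithin_le_nhds)
      ((Continuous.tendsto (f := fun r : ℝ => 2 * (C * ((1 - ‖x‖ ^ 2 - r ^ 2) * ‖W x‖ ^ 2 +
        r ^ 2 * (2 * ((e * W x).re - c) ^ 2)))) (by fun_prop) _).mono_left nhdsWithin_le_nhds) ?_)
      (by rw [ρ2 x hx]; ring)
    filter_upwards [Ioo_mem_nhdsLT (ρ0 x hx)] with r hr
    exact Hm x hx r hr.1 (ρ2 x hx ▸ pow_lt_pow_left₀ hr.2 hr.1.le two_ne_zero) k
  have D : ∀ {f : ℂ → ℂ}, DifferentiableOn ℂ f (ball 0 1) → ∀ {x}, x ∈ ball (0 : ℂ) 1 →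
      HasDerivAt f (deriv f x) x := fun hf x hx =>
    (hf.differentiableAt (isOpen_ball.mem_nhds hx)).hasDerivAt
  have B1 : ∀ x ∈ ball (0 : ℂ) 1, b 1 x = 0 := fun x hx => by
    refine (isOpen_ball.is_const_of_deriv_eq_zero (convex_ball _ _).isPreconnected (hb 1)
      (arc (c := c) he ht ((hb 1).deriv isOpen_ball) fun y hy h => ?_) hx
      (mem_ball_self one_pos)).trans b10
    simpa using (so (D (hb 1) hy) (hasDerivAt_const y 0) (D (hb 1) hy) (.trans (.of_bound (4 * C)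
      (by
        filter_upwards [isOpen_ball.mem_nhds hy] with z hz
        have := Hl z hz 0
        simp only [A0 z hz, mul_zero, zero_add, if_true, map_mul, map_pow, conj_ofReal, ← mul_add,
          norm_mul, norm_pow, norm_real, Real.norm_eq_abs, sq_abs, pow_zero, mul_one] at this
        simp only [mul_zero, add_zero, Real.norm_eq_abs, abs_pow, sq_abs]
        exact le_of_mul_le_mul_left (this.trans_eq (by ring)) (pow_pos (ρ0 z hz) 2))) (dO hy h))).2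
  have S : ∀ k, ∀ x ∈ ball (0 : ℂ) 1, (e * W x).re - c = 0 →
      b (k + 2) x + conj x * (a (k + 1) x - x * b (k + 2) x) + conj (if k = 0 then b 0 x else 0) = 0
      ∧ a (k + 1) x - x * b (k + 2) x + conj (if k = 0 then deriv (b 0) x else 0) = 0 :=
    fun k x hx h => by
    refine so (B := fun y => a (k + 1) y - y * b (k + 2) y) (C := fun y => if k = 0 then b 0 y else 0)
      (D (hb _) hx) ((D (ha _) hx).sub ((hasDerivAt_id' x).mul (D (hb _) hx))) (by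
        split_ifs
        exacts [D (hb 0) hx, hasDerivAt_const _ _]) (.trans ?_ (dO hx h))
    have cc : ContinuousAt (fun y => 4 * C * ρ y ^ 2 / ρ y ^ (k + 1)) x :=
      ContinuousAt.div (by fun_prop) (by fun_prop) (pow_ne_zero _ (ρ0 x hx).ne')
    refine .of_bound (4 * C * ρ x ^ 2 / ρ x ^ (k + 1) + 1) ?_
    filter_upwards [isOpen_ball.mem_nhds hx, cc.eventually (gt_mem_nhds (lt_add_one _))] with z hz h2
    have := Hl z hz (k + 1)
    rw [← le_div_iff₀ (pow_pos (ρ0 z hz) _), mul_div_right_comm, ← ofReal_pow, ρ2 z hz] at this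
    rw [Real.norm_of_nonneg (sq_nonneg _)]
    refine le_of_eq_of_le ?_ (this.trans (mul_le_mul_of_nonneg_right ((ρ2 z hz) ▸ h2.le)
      (sq_nonneg _)))
    congr 1
    simp only [ofReal_sub, ofReal_one, ofReal_pow, ← conj_mul', Nat.add_eq_zero_iff, one_ne_zero,
      and_false, if_false, Nat.add_eq_right]
    ring
  obtain ⟨κ, hκ⟩ := step1 (K := 40 * C) (ha 1) (hb 0) a10 b00 b01 fun x hx => by
    have h1 := Hl x hx 1
    have r0 := ρ0 x hx
    have h2 := Hm x hx (ρ x / 2) (by positivity) (by rw [← ρ2 x hx]; nlinarith) 1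
    simp only [one_ne_zero, if_false, if_true, pow_one, ← ρ2 x hx] at h1 h2
    have h3 := norm_sub_le (4 * (conj x * a 1 x + (ρ x / 2 : ℝ) ^ 2 * b (1 + 1) x + conj (b 0 x)))
      (conj x * a 1 x + ρ x ^ 2 * b (1 + 1) x + conj (b 0 x))
    rw [show 4 * (conj x * a 1 x + (ρ x / 2 : ℝ) ^ 2 * b (1 + 1) x + conj (b 0 x)) -
      (conj x * a 1 x + ρ x ^ 2 * b (1 + 1) x + conj (b 0 x)) = 3 * (conj x * a 1 x + conj (b 0 x))
      by push_cast; ring, norm_mul, norm_mul, Complex.norm_ofNat, Complex.norm_ofNat] at h3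
    have h4 : ‖conj x * a 1 x + conj (b 0 x)‖ ≤
        4 * C * ρ x * (‖W x‖ ^ 2 + ((e * W x).re - c) ^ 2) :=
      le_of_mul_le_mul_right (by nlinarith) r0
    have x1 := (mem_ball_zero_iff.1 hx).le
    have w1 : ‖1 + x‖ * ‖W x‖ = ‖x‖ := by rw [← norm_mul, W, mul_div_cancel₀ _ (n1 hx)]
    have w2 : ‖1 + x‖ ≤ 2 := (norm_add_le _ _).trans (by simp; linarith)
    have w3 : |(e * W x).re - c| ≤ ‖W x‖ + 1 := (abs_sub _ _).trans (add_le_add
      ((abs_re_le_norm _).trans (by rw [norm_mul, he, one_mul])) hc)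
    have w4 : ‖1 + x‖ * |(e * W x).re - c| ≤ 3 := by nlinarith [norm_nonneg (1 + x)]
    have w5 := pow_le_pow_left₀ (by positivity) w4 2
    have w6 := pow_le_pow_left₀ (by positivity) (w1.trans_le x1) 2
    rw [mul_pow] at w5 w6
    rw [sq_abs] at w5
    refine (mul_le_mul_of_nonneg_left h4 (by positivity)).trans ?_
    have : 0 ≤ C * ρ x := by positivity
    change _ ≤ 40 * C * ρ x
    nlinarith
  have κ0 : κ = 0 := by
    have N : ∀ Y : ℝ, Y < -|c| / e.im → ∀ u v : ℂ, u = conj e * (c + Y * I) →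
        v = e * (c - Y * I) → κ * (u * (1 - u) ^ 2 - u * v ^ 2 - 2 * v * (1 - v) * (1 - u - v)) = 0 :=
      fun Y hY u v hu hv => by
      have o := on_arc he ht hY
      rw [← hu] at o
      obtain ⟨n, m, w⟩ := X1 o.1
      have cv : conj u = v := by simp [hu, hv, sub_eq_add_neg]
      have n' : 1 - v ≠ 0 := by simpa [← cv] using (map_ne_zero (starRingEnd ℂ)).2 n
      obtain ⟨s1, s2⟩ := S 0 _ m (by rw [w]; exact o.2)
      have dv : deriv (b 0) (u / (1 - u)) = -conj κ * (2 * u * (1 - u) ^ 2) := by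
        rw [Filter.EventuallyEq.deriv_eq (f := fun x => -conj κ * x ^ 2 / (1 + x) ^ 2)
          (mem_of_superset (isOpen_ball.mem_nhds m) fun y hy => (hκ y hy).2)]
        refine ((((hasDerivAt_pow 2 _).const_mul _).div (((hasDerivAt_id' _).const_add 1).pow 2)
          (pow_ne_zero _ (n1 m))).deriv).trans ?_
        simp only [Pi.pow_apply, one_add_div n, sub_add_cancel, Nat.add_one_sub_one, pow_one]
        field_simp
        ring
      simp only [if_true, zero_add, (hκ _ m).1, (hκ _ m).2, dv, one_add_div n, sub_add_cancel,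
        map_div₀, map_mul, map_pow, map_neg, conj_conj, map_sub, map_one, cv, map_ofNat] at s1 s2
      field_simp at s1 s2
      refine mul_left_cancel₀ (mul_ne_zero n n') ?_
      linear_combination u * s1 + (1 - u - v) * s2
    set Y := -|c| / e.im
    have := N (Y - 1) (by linarith) _ _ rfl rfl
    have h2 := N (Y - 2) (by linarith) _ _ rfl rfl
    have h3 := N (Y - 3) (by linarith) _ _ rfl rfl
    have h4 := N (Y - 4) (by linarith) _ _ rfl rfl
    have : κ * ((conj e - e) ^ 2 * (conj e + 2 * e) * I ^ 3) = 0 := by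
      push_cast at *
      linear_combination (this - 3 * h2 + 3 * h3 - h4) / 6
    refine (mul_eq_zero.1 this).resolve_right (mul_ne_zero (mul_ne_zero (pow_ne_zero _ fun h => ?_)
      fun h => ?_) (pow_ne_zero _ I_ne_zero)) <;> have := congrArg im h <;> simp at this <;> linarith
  have T : ∀ k, ∀ x ∈ ball (0 : ℂ) 1, (e * W x).re - c = 0 → b (k + 2) x = 0 ∧ a (k + 1) x = 0 :=
    fun k x hx h => by
    obtain ⟨s1, s2⟩ := S k x hx h
    rw [(hκ x hx).2, κ0] at s1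
    rw [Filter.EventuallyEq.deriv_eq (f := fun _ => 0) (mem_of_superset (isOpen_ball.mem_nhds hx)
      fun y hy => by simp [(hκ y hy).2, κ0])] at s2
    simp only [map_zero, neg_zero, zero_mul, zero_div, ite_self, add_zero, deriv_const] at s1 s2
    rw [s2, mul_zero, add_zero] at s1
    rw [s1, mul_zero, sub_zero] at s2
    exact ⟨s1, s2⟩
  intro k x hx
  constructor
  · rcases k with _ | k
    exacts [A0 x hx, arc he ht (ha _) (fun y hy h => (T k y hy h).2) x hx]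
  · rcases k with _ | _ | k
    exacts [by simp [(hκ x hx).2, κ0], B1 x hx, arc he ht (hb _) (fun y hy h => (T k y hy h).1) x hx]

end Pool.Agent.H.MP_0bd3a7_an
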