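import Pool.Agent.H.MP_0bd3a7_an.B

set_option autoImplicit false

open Set Filter Topology Metric Function Complex Asymptotics
open scoped ComplexConjugate

namespace Pool.Agent.H.MP_0bd3a7_an

abbrev E := EuclideanSpace ℂ (Fin 2)

noncomputable def mk (x t : ℂ) : E :=
  x • EuclideanSpace.single 0 1 + t • EuclideanSpace.single 1 1

@[simp] lemma mk0 (x t : ℂ) : mk x t 0 = x := by simp [mk]
@[simp] lemma mk1 (x t : ℂ) : mk x t 1 = t := by simp [mk]

lemma ext2 {y z : E} (h0 : y 0 = z 0) (h1 : y 1 = z 1) : y = z := by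
  ext i
  fin_cases i
  exacts [h0, h1]

lemma nsq (z : E) : ‖z‖ ^ 2 = ‖z 0‖ ^ 2 + ‖z 1‖ ^ 2 := by
  rw [EuclideanSpace.norm_sq_eq, Fin.sum_univ_two]

lemma inn (z y : E) : inner ℂ z y = conj (z 0) * y 0 + conj (z 1) * y 1 := by
  simp [PiLp.inner_apply, Fin.sum_univ_two, mul_comm]

lemma mem {z : E} : z ∈ ball (0 : E) 1 ↔ ‖z 0‖ ^ 2 + ‖z 1‖ ^ 2 < 1 := by
  rw [mem_ball_zero_iff, ← sq_lt_one_iff₀ (norm_nonneg _), nsq]

lemma c0 {z : E} (hz : z ∈ ball (0 : E) 1) : z 0 ∈ ball (0 : ℂ) 1 := by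
  rw [mem_ball_zero_iff, ← sq_lt_one_iff₀ (norm_nonneg _)]
  nlinarith [mem.1 hz, sq_nonneg ‖z 1‖]

lemma m0 {x : ℂ} (hx : x ∈ ball (0 : ℂ) 1) : mk x 0 ∈ ball (0 : E) 1 := by
  rw [mem]
  simpa [sq_lt_one_iff₀] using hx

lemma hol {F : E → ℂ} (hF : DifferentiableOn ℂ F (ball 0 1)) (k : ℕ) :
    DifferentiableOn ℂ (fun x => co (fun t => F (mk x t)) k) (ball 0 1) := by
  let D : ℕ → E → ℂ := fun j => Nat.rec F (fun _ g z => fderiv ℂ g z (EuclideanSpace.single 1 1)) j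
  have d : ∀ j, DifferentiableOn ℂ (D j) (ball 0 1) := fun j => by
    induction j with
    | zero => exact hF
    | succ j ih => exact dd isOpen_ball ih _
  have it : ∀ j x t, mk x t ∈ ball (0 : E) 1 →
      iteratedDeriv j (fun t => F (mk x t)) t = D j (mk x t) := fun j x => by
    induction j with
    | zero => exact fun t _ => rfl
    | succ j ih =>
      intro t ht
      have c : ContinuousAt (mk x) t := by unfold mk; fun_prop
      rw [iteratedDeriv_succ, Filter.EventuallyEq.deriv_eq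
        ((c.eventually (isOpen_ball.mem_nhds ht)).mono ih)]
      have := (HasFDerivAt.comp_hasDerivAt (l := D j) t ((d j).differentiableAt
        (isOpen_ball.mem_nhds ht)).hasFDerivAt (((hasDerivAt_id' t).smul_const
        (EuclideanSpace.single 1 1 : E)).const_add (x • EuclideanSpace.single 0 1))).deriv
      rw [one_smul] at this
      exact this
  refine ((((d k).comp (f := fun x => mk x 0) (by unfold mk; fun_prop) fun x hx =>
    m0 hx)).div_const k.factorial).congr fun x hx => ?_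
  rw [co, it k x 0 (m0 hx)]
  rfl

theorem ext {e : ℂ} {c C : ℝ} (he : ‖e‖ = 1) (ht : 0 < e.im) (hc : |c| ≤ 1) (C0 : 0 ≤ C) {g : E → E}
    (hg : DifferentiableOn ℂ g (ball 0 1)) (g0 : g 0 = 0) (g1 : fderiv ℂ g 0 = 0)
    (h : ∀ z ∈ ball (0 : E) 1, |(inner ℂ z (g z)).re| ≤ C * ((1 - ‖z 0‖ ^ 2 - ‖z 1‖ ^ 2) *
      ‖W (z 0)‖ ^ 2 + ‖z 1‖ ^ 2 * (2 * ((e * W (z 0)).re - c) ^ 2))) :
    ∀ z ∈ ball (0 : E) 1, g z = 0 := by
  have pr : ∀ i, DifferentiableOn ℂ (fun z => g z i) (ball 0 1) := fun i =>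
    (EuclideanSpace.proj (𝕜 := ℂ) i).differentiable.comp_differentiableOn hg
  have z0 : mk 0 0 = 0 := by simp [mk]
  have dv : ∀ (i) {γ : ℂ → E} {v : E}, HasDerivAt γ v 0 → γ 0 = 0 →
      deriv (fun s => g (γ s) i) 0 = 0 := fun i γ v h1 h2 => by
    have := ((EuclideanSpace.proj (𝕜 := ℂ) i).hasFDerivAt.comp_hasDerivAt 0
      (HasFDerivAt.comp_hasDerivAt (l := g) 0 (h2.symm ▸ (hg.differentiableAt
        (ball_mem_nhds 0 one_pos)).hasFDerivAt) h1)).deriv
    rw [h2, g1] at this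
    exact this.trans (by simp)
  have d0 : ∀ i, deriv (fun x => co (fun t => g (mk x t) i) 0) 0 = 0 := fun i => by
    simpa [co] using dv i (γ := fun x => mk x 0) (((hasDerivAt_id' 0).smul_const _).add_const _) z0
  have d1 : ∀ i, co (fun t => g (mk 0 t) i) 1 = 0 := fun i => by
    simpa [co] using dv i (γ := fun x => mk 0 x) (((hasDerivAt_id' 0).smul_const _).const_add _) z0
  have sl : ∀ x i {s : Set ℂ}, (∀ t ∈ s, ‖x‖ ^ 2 + ‖t‖ ^ 2 < 1) →
      DifferentiableOn ℂ (fun t => g (mk x t) i) s := fun x i s hs =>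
    (pr i).comp (by unfold mk; fun_prop) fun t ht => mem.2 (by simpa using hs t ht)
  have R := rigid (a := fun k x => co (fun t => g (mk x t) 0) k)
    (b := fun k x => co (fun t => g (mk x t) 1) k) he ht hc C0 (hol (pr 0)) (hol (pr 1))
    (fun x hx => by simpa [co, inn] using h _ (m0 hx)) (fun x _ r r0 r1 k => by
      have s : ∀ t ∈ closedBall (0 : ℂ) r, ‖x‖ ^ 2 + ‖t‖ ^ 2 < 1 := fun t ht => by
        linarith [pow_le_pow_left₀ (norm_nonneg t) (mem_closedBall_zero_iff.1 ht) 2]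
      have := mode (A := fun t => conj x * g (mk x t) 0) r0 ((sl x 0 s).const_mul _) (sl x 1 s)
        (fun t ht => by
          have := h (mk x t) (mem.2 (by simp only [mk0, mk1, ht]; linarith))
          simp only [inn, mk0, mk1, ht] at this
          exact this) k
      simpa only [co, iteratedDeriv_const_mul_field, mul_div_assoc, iteratedDeriv_zero,
        Nat.factorial_zero, Nat.cast_one, div_one] using this)
    (by simp [co, z0, g0]) (d0 0) (d1 0) (by simp [co, z0, g0]) (d0 1) (d1 1)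
  intro z hz
  have key : ∀ i, (∀ k, co (fun t => g (mk (z 0) t) i) k = 0) → g z i = 0 := fun i hk => by
    have := taylorSeries_eq_on_ball' (z := z 1) (c := 0) (r := √(1 - ‖z 0‖ ^ 2)) (by
      rw [mem_ball_zero_iff]
      exact Real.lt_sqrt_of_sq_lt (by linarith [mem.1 hz])) (sl (z 0) i fun t ht => by
      linarith [(Real.lt_sqrt (norm_nonneg t)).1 (mem_ball_zero_iff.1 ht)])
    simp only [co, div_eq_inv_mul] at hk
    simp only [hk, zero_mul, tsum_zero] at this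
    rw [this, ext2 (y := mk (z 0) (z 1)) (z := z) (mk0 _ _) (mk1 _ _)]
  exact ext2 (key 0 fun k => (R k _ (c0 hz)).1) (key 1 fun k => (R k _ (c0 hz)).2)

lemma pos {γ : ℂ} (z : E) (hz : z ∈ ball (0 : E) 1) :
    (inner ℂ z (mk (z 0 * (1 - z 0) / (1 + z 0)) (z 1 * γ))).re =
      (1 - ‖z 0‖ ^ 2 - ‖z 1‖ ^ 2) * ‖W (z 0)‖ ^ 2 + ‖z 1‖ ^ 2 * (‖W (z 0)‖ ^ 2 + γ.re) := by
  have n := n1 (c0 hz)
  have n' : 1 + conj (z 0) ≠ 0 := by simpa using (map_ne_zero (starRingEnd ℂ)).2 n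
  have e : conj (z 0) * (z 0 * (1 - z 0) / (1 + z 0)) = ((1 - ‖z 0‖ ^ 2) * ‖W (z 0)‖ ^ 2 : ℝ) +
      (‖W (z 0)‖ ^ 2 : ℝ) * (conj (z 0) - z 0) := by
    push_cast
    rw [← conj_mul', ← conj_mul', W, map_div₀, map_add, map_one]
    field_simp
    ring
  rw [inn, mk0, mk1, e, ← mul_assoc, conj_mul', ← ofReal_pow, add_re, add_re, re_ofReal_mul,
    re_ofReal_mul, ofReal_re]
  simp only [sub_re, conj_re]
  ring

/-- the starlike map built on the Koebe function -/
noncomputable def fG (G : ℂ → ℂ) : E → E :=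
  (ball 0 1).indicator fun z => mk (z 0 / (1 - z 0) ^ 2) (z 1 * G (z 0))

theorem star {G γ : ℂ → ℂ} (hG : ∀ x ∈ ball (0 : ℂ) 1, G x ≠ 0 ∧ 0 ≤ ‖W x‖ ^ 2 + (γ x).re ∧
      ∃ G', HasDerivAt G G' x ∧ x * (1 - x) / (1 + x) * G' = (1 - γ x) * G x) (G0 : G 0 = 1) :
    (DifferentiableOn ℂ (fG G) (ball 0 1) ∧ InjOn (fG G) (ball 0 1) ∧ fG G 0 = 0 ∧
      fderiv ℂ (fG G) 0 = ContinuousLinearMap.id ℂ E ∧
      (∀ z ∈ ball (0 : E) 1, ∃ e : E ≃L[ℂ] E, (e : E →L[ℂ] E) = fderiv ℂ (fG G) z) ∧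
      (∀ z ∈ ball (0 : E) 1, z ≠ 0 → 0 < (inner ℂ z ((fderiv ℂ (fG G) z).inverse
        (ContinuousLinearMap.id ℂ E (fG G z)))).re) ∧ ∀ z, z ∉ ball (0 : E) 1 → fG G z = 0) ∧
    ∀ z ∈ ball (0 : E) 1, (fderiv ℂ (fG G) z).inverse (ContinuousLinearMap.id ℂ E (fG G z)) =
      mk (z 0 * (1 - z 0) / (1 + z 0)) (z 1 * γ (z 0)) := by
  have n2 : ∀ x ∈ ball (0 : ℂ) 1, 1 - x ≠ 0 := fun x hx => by
    simpa [sub_eq_add_neg] using n1 (x := -x) (by simpa using hx)
  choose! G' h1 h2 using fun x hx => (hG x hx).2.2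
  have d : ∀ z ∈ ball (0 : E) 1, DifferentiableAt ℂ (fG G) z ∧ ∀ v, fderiv ℂ (fG G) z v =
      mk ((1 + z 0) / (1 - z 0) ^ 3 * v 0) (z 1 * (G' (z 0) * v 0) + G (z 0) * v 1) := fun z hz => by
    have p : ∀ i : Fin 2, HasFDerivAt (fun z : E => z i) (EuclideanSpace.proj i : E →L[ℂ] ℂ) z :=
      fun i => (EuclideanSpace.proj i : E →L[ℂ] ℂ).hasFDerivAt
    have n := n2 _ (c0 hz)
    have k : HasDerivAt (fun x : ℂ => x / (1 - x) ^ 2) ((1 + z 0) / (1 - z 0) ^ 3) (z 0) :=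
      ((hasDerivAt_id' _).div (((hasDerivAt_id' _).const_sub 1).pow 2)
        (pow_ne_zero _ n)).congr_deriv (by
        simp only [Pi.pow_apply, Nat.add_one_sub_one, pow_one]
        field_simp
        ring)
    have q0 := HasDerivAt.comp_hasFDerivAt z k (p 0)
    have q1 := HasDerivAt.comp_hasFDerivAt z (h1 _ (c0 hz)) (p 0)
    have q := (q0.smul_const (EuclideanSpace.single 0 1 : E)).add
      (((p 1).mul q1).smul_const (EuclideanSpace.single 1 1 : E))
    have : HasFDerivAt (fG G) _ z := q.congr_of_eventuallyEq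
      (mem_of_superset (isOpen_ball.mem_nhds hz) fun y hy => (indicator_of_mem hy
        fun z => mk (z 0 / (1 - z 0) ^ 2) (z 1 * G (z 0)) :))
    exact ⟨this.differentiableAt, fun v => by rw [this.fderiv]; simp [mk]⟩
  have iv : ∀ z ∈ ball (0 : E) 1, (fderiv ℂ (fG G) z).IsInvertible := fun z hz => by
    refine ⟨(LinearEquiv.ofInjectiveEndo (fderiv ℂ (fG G) z).toLinearMap
      ((injective_iff_map_eq_zero _).2 fun v hv => ?_)).toContinuousLinearEquiv, by ext1; rfl⟩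
    replace hv := ((d z hz).2 v).symm.trans hv
    have a0 := congrArg (fun u : E => u 0) hv
    have a1 := congrArg (fun u : E => u 1) hv
    simp only [mk0, mk1, PiLp.zero_apply] at a0 a1
    have := (mul_eq_zero.1 a0).resolve_left (div_ne_zero (n1 (c0 hz)) (pow_ne_zero _ (n2 _ (c0 hz))))
    rw [this, mul_zero, mul_zero, zero_add] at a1
    exact ext2 this ((mul_eq_zero.1 a1).resolve_left (hG _ (c0 hz)).1)
  have hv : ∀ z ∈ ball (0 : E) 1, (fderiv ℂ (fG G) z).inverse (ContinuousLinearMap.id ℂ E (fG G z)) =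
      mk (z 0 * (1 - z 0) / (1 + z 0)) (z 1 * γ (z 0)) := fun z hz => by
    rw [(iv z hz).inverse_apply_eq, (d z hz).2, fG, indicator_of_mem hz]
    have n := n1 (c0 hz)
    have n' := n2 _ (c0 hz)
    refine ext2 ?_ ?_ <;> simp only [mk0, mk1, ContinuousLinearMap.id_apply]
    · field_simp
    · linear_combination -z 1 * h2 _ (c0 hz)
  have z0 : (0 : E) ∈ ball 0 1 := mem_ball_self one_pos
  refine ⟨⟨fun z hz => (d z hz).1.differentiableWithinAt, fun x hx y hy h => ?_, ?_, ?_, iv,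
    fun z hz z0 => ?_, fun z hz => indicator_of_notMem hz _⟩, hv⟩
  · rw [fG, indicator_of_mem hx, indicator_of_mem hy] at h
    have a0 := congrArg (fun u : E => u 0) h
    have a1 := congrArg (fun u : E => u 1) h
    simp only [mk0, mk1] at a0 a1
    rw [div_eq_div_iff (pow_ne_zero _ (n2 _ (c0 hx))) (pow_ne_zero _ (n2 _ (c0 hy)))] at a0
    have : x 0 = y 0 := sub_eq_zero.1 ((mul_eq_zero.1 (show (x 0 - y 0) * (1 - x 0 * y 0) = 0 by
      linear_combination a0)).resolve_right (n2 _ (by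
        rw [mem_ball_zero_iff, norm_mul]
        exact mul_lt_one_of_nonneg_of_lt_one_left (norm_nonneg _) (mem_ball_zero_iff.1 (c0 hx))
          (mem_ball_zero_iff.1 (c0 hy)).le)))
    rw [this] at a1
    exact ext2 this (mul_right_cancel₀ (hG _ (c0 hy)).1 a1)
  · rw [fG, indicator_of_mem z0]
    simp [mk]
  · ext1 v
    rw [(d 0 z0).2]
    exact ext2 (by simp) (by simp [G0])
  · rw [hv z hz, pos z hz]
    have p := mem.1 hz
    by_cases h : z 0 = 0
    · have := h2 0 (mem_ball_self one_pos)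
      have γ0 : γ 0 = 1 := by
        rw [G0] at this
        linear_combination this
      have : z 1 ≠ 0 := fun h' => z0 (ext2 h h')
      simp [h, W, γ0, this]
    · have : 0 < ‖W (z 0)‖ := norm_pos_iff.2 (div_ne_zero h (n1 (c0 hz)))
      exact add_pos_of_pos_of_nonneg (mul_pos (by linarith) (by positivity))
        (mul_nonneg (sq_nonneg _) (hG _ (c0 hz)).2.1)

end Pool.Agent.H.MP_0bd3a7_an
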