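import Pool.Agent.H.MP_0bd3a7_an.C

set_option autoImplicit false

open Set Filter Topology Metric Function Complex Asymptotics
open scoped ComplexConjugate

namespace Pool.Agent.H.MP_0bd3a7_an

noncomputable def L (a b x : ℂ) : ℂ := a * log (1 - x) + b * log (1 + x)

lemma Ld (a b : ℂ) {x : ℂ} (hx : x ∈ ball (0 : ℂ) 1) : ∃ L', HasDerivAt (L a b) L' x ∧
    x * (1 - x) / (1 + x) * L' = -a * W x + b * (W x - 2 * W x ^ 2) := by
  have h := abs_lt.1 ((abs_re_le_norm x).trans_lt (mem_ball_zero_iff.1 hx))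
  have n := n1 hx
  have n' : 1 - x ≠ 0 := by simpa [sub_eq_add_neg] using n1 (x := -x) (by simpa using hx)
  refine ⟨_, ((((hasDerivAt_id' x).const_sub 1).clog (.inl (by simp; linarith))).const_mul a).add
    ((((hasDerivAt_id' x).const_add 1).clog (.inl (by simp; linarith))).const_mul b), ?_⟩
  rw [W]
  field_simp
  ring

lemma alg {p φ : ℂ} {ε c : ℝ} (hR : φ.im ≤ -(1 / 2)) : 1 + ε * φ ≠ 0 ∧
    (ε * (I * (2 * c * p - p ^ 2)) / (1 + ε * φ)).re ≤ 2 * (p.re - c) ^ 2 := by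
  have n : 1 + ε * φ ≠ 0 := fun h => by
    have h1 := congrArg re h
    have h2 := congrArg im h
    simp at h1 h2
    rcases h2 with h2 | h2
    · simp [h2] at h1
    · linarith
  refine ⟨n, ?_⟩
  rw [div_re, ← add_div, div_le_iff₀ (normSq_pos.2 n)]
  simp [normSq_apply, sq]
  nlinarith [sq_nonneg ((p.re - c) * (1 + ε * φ.re) - ε * p.im / 2),
    mul_nonneg (sq_nonneg (ε * p.im)) (by linarith : 0 ≤ -φ.im - 1 / 2),
    mul_nonneg (sq_nonneg (ε * c)) (by linarith : 0 ≤ -φ.im),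
    mul_nonneg (sq_nonneg (ε * (p.re - c))) (mul_nonneg (by linarith : 0 ≤ -φ.im)
      (by linarith : 0 ≤ -2 * φ.im - 1))]

variable {e : ℂ} {c : ℝ}

lemma near (he : ‖e‖ = 1) (e0 : 0 < e.re) (t0 : 0 < e.im) (t1 : e.im ≤ 1 / 100) (c0 : 0 < c)
    (c2 : c ^ 2 = 1 / 2) {x : ℂ} (hx : x ∈ ball (0 : ℂ) 1) (h : ‖1 + x‖ ≤ Real.exp (-2)) :
    (L (I * e ^ 2 / 2 - 2 * I * c * e) (I * e ^ 2 / 2) x).im ≤ -(1 / 2) := by
  have u2 : e.re ^ 2 + e.im ^ 2 = 1 := by
    have := Complex.sq_norm e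
    rw [he, normSq_apply] at this
    linarith
  have u1 : e.re ≤ 1 := by nlinarith
  have u3 : 99 / 100 ≤ e.re := by nlinarith
  have c1 : c ≤ 1 := by nlinarith
  have c3 : 7 / 10 ≤ c := by nlinarith
  have l1 : 0 ≤ (log (1 - x)).re := by
    rw [log_re]
    refine Real.log_nonneg ?_
    have := norm_add_le (1 - x) (1 + x)
    rw [show 1 - x + (1 + x) = 2 by ring, Complex.norm_ofNat] at this
    linarith [Real.exp_le_one_iff.2 (by norm_num : (-2 : ℝ) ≤ 0)]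
  have l2 : (log (1 + x)).re ≤ -2 := by
    rw [log_re]
    exact (Real.log_le_iff_le_exp (norm_pos_iff.2 (n1 hx))).2 h
  have a1 := abs_le.1 ((abs_arg_le_pi (1 - x)).trans Real.pi_le_four)
  have a2 := abs_le.1 ((abs_arg_le_pi (1 + x)).trans Real.pi_le_four)
  rw [← log_im] at a1 a2
  have b1 : |c * 2 * e.im - e.re * e.im| ≤ 3 / 100 := abs_le.2 ⟨by nlinarith, by nlinarith⟩
  have b2 := abs_le.1 ((abs_mul _ _).trans_le (mul_le_mul b1 (abs_le.2 a1) (abs_nonneg _)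
    (by norm_num)))
  have b3 := abs_le.1 ((abs_mul _ _).trans_le (mul_le_mul (abs_le.2 (⟨by nlinarith, by nlinarith⟩ :
    -(1 / 100) ≤ e.re * e.im ∧ e.re * e.im ≤ 1 / 100)) (abs_le.2 a2) (abs_nonneg _) (by norm_num)))
  have b4 := mul_nonneg l1 (by nlinarith : 0 ≤ c * 2 * e.re - (e.re ^ 2 - e.im ^ 2) / 2)
  have b5 := mul_le_mul_of_nonneg_right l2 (by nlinarith : 0 ≤ (e.re ^ 2 - e.im ^ 2) / 2)
  simp [L, sq]
  nlinarith

lemma far (he : ‖e‖ = 1) (e0 : 0 < e.re) (t0 : 0 < e.im) (t1 : e.im ≤ 1 / 100) (c0 : 0 < c)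
    (c2 : c ^ 2 = 1 / 2) {x : ℂ} (hx : x ∈ ball (0 : ℂ) 1) (h : Real.exp (-2) ≤ ‖1 + x‖) {ε : ℝ}
    (hε : |ε| ≤ 1 / 20000) : 1 + ε * L (I * e ^ 2 / 2 - 2 * I * c * e) (I * e ^ 2 / 2) x ≠ 0 ∧
    (ε * (I * (2 * c * (e * W x) - (e * W x) ^ 2)) / (1 + ε * L (I * e ^ 2 / 2 - 2 * I * c * e)
      (I * e ^ 2 / 2) x)).re ≤ 2 * ((e * W x).re - c) ^ 2 := by
  have u2 : e.re ^ 2 + e.im ^ 2 = 1 := by
    have := Complex.sq_norm e
    rw [he, normSq_apply] at this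
    linarith
  have u1 : e.re ≤ 1 := by nlinarith
  have u3 : 99 / 100 ≤ e.re := by nlinarith
  have c1 : c ≤ 1 := by nlinarith
  have c3 : 7 / 10 ≤ c := by nlinarith
  have x1 := mem_ball_zero_iff.1 hx
  have p := norm_pos_iff.2 (n1 hx)
  have w1 : ‖W x‖ ≤ 8 := by
    have : Real.exp 2 ≤ 8 := by
      have := Real.exp_one_lt_d9
      rw [show (2 : ℝ) = 1 + 1 by norm_num, Real.exp_add]
      nlinarith [Real.exp_pos 1]
    rw [Real.exp_neg, inv_le_comm₀ (Real.exp_pos _) p, ← one_div, div_le_iff₀ p] at h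
    rw [W, norm_div, div_le_iff₀ p]
    nlinarith
  have w2 : (W x).re ≤ 1 / 2 := by
    have := Complex.sq_norm x
    rw [W, div_re, ← add_div, div_le_iff₀ (normSq_pos.2 (n1 hx))]
    simp only [normSq_apply, add_re, add_im, one_re, one_im] at this ⊢
    nlinarith [norm_nonneg x]
  have w3 := abs_le.1 ((abs_im_le_norm _).trans w1)
  have D : (e * W x).re - c ≤ -(1 / 10) := by
    rw [mul_re]
    nlinarith
  set a := I * e ^ 2 / 2 - 2 * I * c * e with ha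
  set b := I * e ^ 2 / 2 with hb
  have nb : ‖b‖ = 1 / 2 := by simp [hb, he]
  have na : ‖a‖ ≤ 2 := (norm_sub_le _ _).trans (by
    simp [he, abs_of_pos c0]
    nlinarith)
  have ia : a.im ≤ -(8 / 10) := by
    simp [ha, hb, sq]
    nlinarith
  have l2 : ‖log (1 + x)‖ ≤ 6 := by
    refine (norm_le_abs_re_add_abs_im _).trans ?_
    rw [log_re, log_im]
    have : ‖1 + x‖ ≤ 2 := (norm_add_le _ _).trans (by simp; linarith)
    linarith [(abs_arg_le_pi (1 + x)).trans Real.pi_le_four, abs_le.2 (⟨(Real.le_log_iff_exp_le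
      p).2 h, by linarith [Real.log_le_sub_one_of_pos p]⟩ : -2 ≤ Real.log ‖1 + x‖ ∧
      Real.log ‖1 + x‖ ≤ 2)]
  have m : 1 / 5 ≤ ‖1 + ε * L a b x‖ := by
    have k1 := (le_abs_self _).trans (abs_im_le_norm (conj a * (1 + ε * L a b x)))
    have k2 : (conj a * (1 + ε * L a b x)).im = -a.im + ε * (‖a‖ ^ 2 * arg (1 - x) +
        (conj a * b * log (1 + x)).im) := by
      rw [show conj a * (1 + ε * L a b x) = conj a + ε * ((‖a‖ ^ 2 : ℝ) * log (1 - x) +
        conj a * b * log (1 + x)) by rw [L, ofReal_pow, ← conj_mul']; ring, add_im, conj_im,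
        im_ofReal_mul, add_im, im_ofReal_mul, log_im]
    have k3 : |‖a‖ ^ 2 * arg (1 - x) + (conj a * b * log (1 + x)).im| ≤ 4 * 4 + 2 * (1 / 2) * 6 := by
      refine (abs_add_le _ _).trans (add_le_add ?_ ((abs_im_le_norm _).trans ?_))
      · rw [abs_mul, abs_of_nonneg (sq_nonneg _)]
        exact mul_le_mul (by nlinarith [norm_nonneg a]) ((abs_arg_le_pi _).trans Real.pi_le_four)
          (abs_nonneg _) (by norm_num)
      · rw [norm_mul, norm_mul, norm_conj, nb]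
        gcongr
    have k4 := abs_le.1 ((abs_mul _ _).trans_le (mul_le_mul hε k3 (abs_nonneg _) (by norm_num)))
    rw [norm_mul, norm_conj, k2] at k1
    nlinarith [norm_nonneg (1 + ε * L a b x)]
  refine ⟨norm_pos_iff.1 (by linarith), (re_le_norm _).trans ?_⟩
  have q : ‖e * W x‖ ≤ 8 := by rwa [norm_mul, he, one_mul]
  have s : ‖2 * c * (e * W x) - (e * W x) ^ 2‖ ≤ 80 := (norm_sub_le _ _).trans (by
    rw [norm_mul, norm_mul, norm_pow, norm_real, Real.norm_of_nonneg c0.le, Complex.norm_ofNat]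
    nlinarith [norm_nonneg (e * W x)])
  rw [norm_div, norm_mul, norm_mul, norm_I, one_mul, norm_real, Real.norm_eq_abs,
    div_le_iff₀ (by linarith)]
  have := mul_le_mul hε s (norm_nonneg _) (by norm_num)
  nlinarith [mul_le_mul (by nlinarith : 2 / 100 ≤ 2 * ((e * W x).re - c) ^ 2) m (by norm_num)
    (by positivity)]

lemma base (he : ‖e‖ = 1) (c2 : c ^ 2 = 1 / 2) (w : ℂ) :
    ‖w‖ ^ 2 + (1 - 4 * c * (e * w) + (e * w) ^ 2).re = 2 * ((e * w).re - c) ^ 2 := by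
  rw [← one_mul ‖w‖, ← he, ← norm_mul]
  generalize e * w = p
  rw [Complex.sq_norm]
  simp [normSq_apply, sq]
  linarith

/-- the perturbed second factors -/
noncomputable def Gp (e : ℂ) (c ε : ℝ) (x : ℂ) : ℂ := exp (L (e ^ 2 / 2 - 4 * c * e) (e ^ 2 / 2) x) *
  (1 + ε * L (I * e ^ 2 / 2 - 2 * I * c * e) (I * e ^ 2 / 2) x)

noncomputable def γp (e : ℂ) (c ε : ℝ) (x : ℂ) : ℂ := 1 - 4 * c * (e * W x) + (e * W x) ^ 2 -
  ε * (I * (2 * c * (e * W x) - (e * W x) ^ 2)) /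
    (1 + ε * L (I * e ^ 2 / 2 - 2 * I * c * e) (I * e ^ 2 / 2) x)

theorem pert (he : ‖e‖ = 1) (e0 : 0 < e.re) (t0 : 0 < e.im) (t1 : e.im ≤ 1 / 100) (c0 : 0 < c)
    (c2 : c ^ 2 = 1 / 2) {ε : ℝ} (hε : |ε| ≤ 1 / 20000) : ∀ x ∈ ball (0 : ℂ) 1,
    Gp e c ε x ≠ 0 ∧ 0 ≤ ‖W x‖ ^ 2 + (γp e c ε x).re ∧ ∃ G', HasDerivAt (Gp e c ε) G' x ∧
      x * (1 - x) / (1 + x) * G' = (1 - γp e c ε x) * Gp e c ε x := fun x hx => by
  obtain ⟨n, k⟩ := (le_total _ _).elim (fun h => alg (p := e * W x) (ε := ε) (c := c)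
    (near he e0 t0 t1 c0 c2 hx h)) fun h => far he e0 t0 t1 c0 c2 hx h hε
  obtain ⟨A, a1, a2⟩ := Ld (e ^ 2 / 2 - 4 * c * e) (e ^ 2 / 2) hx
  obtain ⟨B, b1, b2⟩ := Ld (I * e ^ 2 / 2 - 2 * I * c * e) (I * e ^ 2 / 2) hx
  refine ⟨mul_ne_zero (exp_ne_zero _) n, ?_, _, a1.cexp.mul ((b1.const_mul _).const_add 1), ?_⟩
  · rw [γp, sub_re]
    linarith [base he c2 (W x)]
  · rw [γp, Gp, ← sub_add, add_mul, mul_left_comm (_ / _), div_mul_cancel₀ _ n]
    linear_combination (exp (L (e ^ 2 / 2 - 4 * c * e) (e ^ 2 / 2) x) * (1 + ε * L (I * e ^ 2 / 2 -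
      2 * I * c * e) (I * e ^ 2 / 2) x)) * a2 + exp (L (e ^ 2 / 2 - 4 * c * e) (e ^ 2 / 2) x) * ε * b2

theorem main : ∃ G γ : ℂ → ℂ, (∀ x ∈ ball (0 : ℂ) 1, G x ≠ 0 ∧ 0 ≤ ‖W x‖ ^ 2 + (γ x).re ∧
      ∃ G', HasDerivAt G G' x ∧ x * (1 - x) / (1 + x) * G' = (1 - γ x) * G x) ∧ G 0 = 1 ∧
    fG G ∉ extremePoints ℝ {g : E → E | DifferentiableOn ℂ g (ball 0 1) ∧ InjOn g (ball 0 1) ∧
      g 0 = 0 ∧ fderiv ℂ g 0 = ContinuousLinearMap.id ℂ E ∧
      (∀ z ∈ ball (0 : E) 1, ∃ e : E ≃L[ℂ] E, (e : E →L[ℂ] E) = fderiv ℂ g z) ∧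
      (∀ z ∈ ball (0 : E) 1, z ≠ 0 → 0 < (inner ℂ z ((fderiv ℂ g z).inverse
        (ContinuousLinearMap.id ℂ E (g z)))).re) ∧ ∀ z, z ∉ ball (0 : E) 1 → g z = 0} ∧
    (ball 0 1).indicator (fun z : E => mk (z 0 * (1 - z 0) / (1 + z 0)) (z 1 * γ (z 0))) ∈
      extremePoints ℝ {h : E → E | DifferentiableOn ℂ h (ball 0 1) ∧ h 0 = 0 ∧
        fderiv ℂ h 0 = ContinuousLinearMap.id ℂ E ∧
        (∀ z ∈ ball (0 : E) 1, z ≠ 0 → 0 < (inner ℂ z (h z)).re) ∧
        ∀ z, z ∉ ball (0 : E) 1 → h z = 0} := by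
  obtain ⟨e, he, e0, t0, t1⟩ : ∃ e : ℂ, ‖e‖ = 1 ∧ 0 < e.re ∧ 0 < e.im ∧ e.im ≤ 1 / 100 :=
    ⟨⟨39999 / 40001, 400 / 40001⟩, by
      rw [← sq_eq_sq₀ (norm_nonneg _) zero_le_one, Complex.sq_norm, normSq_mk]; norm_num,
      by norm_num, by norm_num, by norm_num⟩
  obtain ⟨c, c0, c2⟩ : ∃ c : ℝ, 0 < c ∧ c ^ 2 = 1 / 2 :=
    ⟨√(1 / 2), by positivity, Real.sq_sqrt (by norm_num)⟩
  have P := fun ε => pert (ε := ε) he e0 t0 t1 c0 c2
  have G0 : ∀ ε, Gp e c ε 0 = 1 := fun ε => by simp [Gp, L]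
  have S := fun ε hε => star (P ε hε) (G0 ε)
  have z0 : (0 : E) ∈ ball 0 1 := mem_ball_self one_pos
  refine ⟨Gp e c 0, γp e c 0, P 0 (by norm_num), G0 0, fun h => ?_, ?_, ?_⟩
  · have := (h.2 (S (1 / 20000) (by norm_num)).1 (S (-(1 / 20000)) (by norm_num)).1
      ⟨1 / 2, 1 / 2, by norm_num, by norm_num, by norm_num, by
        ext1 z
        by_cases hz : z ∈ ball (0 : E) 1
        · simp only [fG, Pi.add_apply, Pi.smul_apply, indicator_of_mem hz]
          refine ext2 ?_ ?_ <;> simp [Gp] <;> ring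
        · simp [fG, indicator_of_notMem hz]⟩)
    have m : mk (-(9 / 10)) (1 / 10) ∈ ball (0 : E) 1 := mem.2 (by simp; norm_num)
    have := congrArg (fun g => g (mk (-(9 / 10)) (1 / 10)) 1) this
    simp only [fG, indicator_of_mem m, mk0, mk1, Gp] at this
    have k := near he e0 t0 t1 c0 c2 (x := -(9 / 10)) (by simp; norm_num) (by
      have := Real.exp_one_lt_d9
      rw [show (1 : ℂ) + -(9 / 10) = (1 / 10 : ℝ) by push_cast; ring, norm_real, Real.exp_neg,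
        Real.norm_of_nonneg (by norm_num), show (2 : ℝ) = 1 + 1 by norm_num, Real.exp_add,
        le_inv_comm₀ (by norm_num) (by positivity)]
      nlinarith [Real.exp_pos 1])
    have := congrArg im (mul_left_cancel₀ (exp_ne_zero _) (mul_left_cancel₀ (by norm_num) this))
    simp only [add_im, one_im, im_ofReal_mul] at this
    linarith
  · have d : ∀ z ∈ ball (0 : E) 1, DifferentiableAt ℂ (fun z : E =>
        mk (z 0 * (1 - z 0) / (1 + z 0)) (z 1 * γp e c 0 (z 0))) z := fun z hz => by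
      have := n1 (MP_0bd3a7_an.c0 hz)
      simp only [γp, ofReal_zero, zero_mul, zero_div, sub_zero, W, mk]
      fun_prop (disch := assumption)
    have ev : ∀ z ∈ ball (0 : E) 1, (ball 0 1).indicator (fun z : E =>
        mk (z 0 * (1 - z 0) / (1 + z 0)) (z 1 * γp e c 0 (z 0))) =ᶠ[𝓝 z] _ := fun z hz =>
      mem_of_superset (isOpen_ball.mem_nhds hz) fun y hy => indicator_of_mem hy _
    refine ⟨fun z hz => ((d z hz).congr_of_eventuallyEq (ev z hz)).differentiableWithinAt,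
      by simp [mk], ?_, fun z hz h => ?_, fun z hz => indicator_of_notMem hz _⟩
    · rw [(ev 0 z0).fderiv_eq]
      ext1 v
      have := (HasFDerivAt.comp_hasDerivAt (0 : ℂ) (by simpa using (d 0 z0).hasFDerivAt)
        ((hasDerivAt_id' (0 : ℂ)).smul_const v)).tendsto_slope_zero
      refine (one_smul ℂ v ▸ tendsto_nhds_unique this ?_ :)
      have k : ContinuousAt (fun t : ℂ => mk (v 0 * (1 - t * v 0) / (1 + t * v 0))
          (v 1 * γp e c 0 (t * v 0))) 0 := by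
        simp only [γp, ofReal_zero, zero_mul, zero_div, sub_zero, W, mk]
        fun_prop (disch := simp)
      refine (k.tendsto.mono_left nhdsWithin_le_nhds).congr' (eventually_nhdsWithin_of_forall
        fun t ht => ?_) |>.trans (le_of_eq (congrArg _ (ext2 (by simp) (by simp [γp, W]))))
      have : t ≠ 0 := ht
      refine ext2 ?_ ?_ <;> simp <;> field_simp
    · rw [indicator_of_mem hz, ← (S 0 (by norm_num)).2 z hz]
      exact (S 0 (by norm_num)).1.2.2.2.2.2.1 z hz h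
  · rintro g1 ⟨a1, a2, a3, a4, a5⟩ g2 ⟨b1, b2, b3, b4, b5⟩ ⟨s, t, s0, t0', st, h⟩
    have nn : ∀ {g : E → E}, (∀ z ∈ ball (0 : E) 1, z ≠ 0 → 0 < (inner ℂ z (g z)).re) →
        ∀ z ∈ ball (0 : E) 1, 0 ≤ (inner ℂ z (g z)).re := fun hg z hz => by
      by_cases h : z = 0
      · simp [h]
      · exact (hg z hz h).le
    have := ext (g := fun z => g1 z - g2 z) (C := 1 / s + 1 / t) he t0 (abs_le.2
      (⟨by linarith, by nlinarith⟩ : -1 ≤ c ∧ c ≤ 1)) (by positivity) (a1.sub b1) (by simp [a2, b2])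
      (by rw [fderiv_fun_sub (a1.differentiableAt (ball_mem_nhds 0 one_pos))
        (b1.differentiableAt (ball_mem_nhds 0 one_pos)), a3, b3, sub_self]) fun z hz => by
      have k := pos (γ := γp e c 0 (z 0)) z hz
      rw [γp, ofReal_zero, zero_mul, zero_div, sub_zero, base he c2] at k
      have h' := congrArg (fun g => (inner ℂ z (g z)).re) h
      simp only [indicator_of_mem hz, γp, ofReal_zero, zero_mul, zero_div, sub_zero, k,
        Pi.add_apply, Pi.smul_apply, inner_add_right, ← coe_smul, inner_smul_right, add_re,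
        re_ofReal_mul] at h'
      rw [← h', inner_sub_right, sub_re]
      have p1 := nn a4 z hz
      have p2 := nn b4 z hz
      refine (abs_sub _ _).trans ?_
      rw [abs_of_nonneg p1, abs_of_nonneg p2, add_mul, mul_add, mul_add, one_div_mul_eq_div,
        one_div_mul_eq_div t (t * _), mul_div_cancel_left₀ _ s0.ne', mul_div_cancel_left₀ _ t0'.ne']
      linarith [show 0 ≤ 1 / s * (t * (inner ℂ z (g2 z)).re) by positivity,
        show 0 ≤ 1 / t * (s * (inner ℂ z (g1 z)).re) by positivity]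
    have e12 : g1 = g2 := funext fun z => by
      by_cases hz : z ∈ ball (0 : E) 1
      · exact sub_eq_zero.1 (this z hz)
      · rw [a5 z hz, b5 z hz]
    rw [← h, ← e12, ← add_smul, st, one_smul]

end Pool.Agent.H.MP_0bd3a7_an
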